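import Pool.Agent.N375.AV.D
import Pool.Agent.K6.H40.LogAbc

/-!
# The inequality `c < C H (abc) ^ M` for triples with a member near the values of compositions of additive functions

Let `F = f_1 ∘ ⋯ ∘ f_k` be a composition of functions dominated by the largest prime factor: for example additive functions
`f` with `f (q ^ j) ≤ C q ^ j` at the prime powers and different values at different large primes (the sum of the prime
factors, with or without multiplicity), the largest prime factor itself, and Kempner's function. Let `G` have steps bounded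
below by a positive constant and growth at most `v ^ d`, for example `α v ^ d` with `α > 0`, `d ≥ 1`. If
`2 A d / (3 M) + κ < 1`, then for all `m ≤ N` but `K N exp (- c₀ (log N) ^ (1 / (k + 1)))` EVERY admissible triple one of
whose members `n` is within `F(m) ^ κ` of `G (F m)`, and with `c ≤ n ^ A`, satisfies `c < C H (abc) ^ M`. For `M = 1 + ε`
this is the inequality of the question, for `A = 1` and every order `d < 3 / 2`; here `C > 0` is arbitrary.

The number `F(m)` is in general much smaller than `m` and the values of `F` are taken with very large multiplicities, and so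
this does not follow from the size of the exceptional set alone.

Proof. The number of the members of the exceptional triples up to `X` is at most `X ^ (2 A / (3 M) + ε)` by the starting
theorem `ExceptionsByHeight` of this problem. The preimage of a set with at most `K X exp (- c (log X) ^ β)` elements up to
`X` under a function dominated by the largest prime factor has at most `K' X exp (- c' (log X) ^ (β / (1 + β)))` elements
(tool of helper375, `N375/AV`).
-/

set_option autoImplicit false

namespace Pool.Agent.Results.MP_14cf73_nt.AdditiveValues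

open Pool.Agent.N733.TG (Expanding expanding_pow)
open Pool.Agent.N375.AV (PD comp good_nat pd_additive pd_sopfr pd_largest pd_kempner)
open Pool.Agent.Results.MP_14cf73_nt.SequenceMembers (Good)
open Pool.Agent.K6.H40.LogAbc (count_nat)

/-- **The inequality with `H` near the values of compositions of additive functions.** Let `F = f_1 ∘ ⋯ ∘ f_k` with `f_i`
dominated by the largest prime factor. Let `G` have steps `≥ a > 0` and growth at most `v ^ d`. Let `A ≥ 1`, `C > 0`, `M > 0`,
`κ ≥ 0` and `2 A d / (3 M) + κ < 1`. There are `c₀ > 0` and `K` such that for every `N ≥ 1`, for all `m ≤ N` but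
`K N exp (- c₀ (log N) ^ (1 / (k + 1)))`, EVERY `n ≥ 1` with `|n - G (F m)| ≤ F(m) ^ κ` is `Good A C M`: every admissible
triple with the member `n` and `c ≤ n ^ A` satisfies `c < C H (abc) ^ M`. The additive functions with `f (q ^ j) ≤ C q ^ j`
which are injective at the large primes, the sum of the prime factors with multiplicity, the largest prime factor and
Kempner's function are examples of such functions `f_i`, and `α v ^ d` with `α > 0`, `d ≥ 1` is an example of `G`. -/
theorem result :
    (∀ fs : List (ℕ → ℕ), (∀ f ∈ fs, PD f) → ∀ (G : ℕ → ℝ) (d : ℝ), Expanding G d → ∀ A C M κ : ℝ, 1 ≤ A → 0 < C → 0 < M →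
      0 ≤ κ → d * (2 * A / (3 * M)) + κ < 1 → ∃ c₀ K : ℝ, 0 < c₀ ∧ ∀ N : ℕ, 1 ≤ N →
      ({m : ℕ | 1 ≤ m ∧ m ≤ N ∧ ¬ ∀ n : ℕ, 1 ≤ n → |(n : ℝ) - G (comp fs m)| ≤ (comp fs m : ℝ) ^ κ →
        Good A C M n}.ncard : ℝ) ≤ K * N * Real.exp (-(c₀ * Real.log N ^ ((1 : ℝ) / (fs.length + 1))))) ∧
    ((∀ f : ℕ → ℕ, (∀ a b : ℕ, Nat.Coprime a b → f (a * b) = f a + f b) →
        (∃ C : ℕ, ∀ q j : ℕ, q.Prime → 1 ≤ j → f (q ^ j) ≤ C * q ^ j) →
        (∃ P : ℕ, ∀ p q : ℕ, p.Prime → q.Prime → P ≤ p → P ≤ q → f p = f q → p = q) → PD f) ∧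
      PD (fun n => n.primeFactorsList.sum) ∧ PD (fun n => n.primeFactors.sup id) ∧
      PD (fun n => sInf {k : ℕ | n ∣ k.factorial})) ∧
    ∀ α d : ℝ, 0 < α → 1 ≤ d → Expanding (fun v => α * (v : ℝ) ^ d) d := by
  refine ⟨fun fs hfs G d hG A C M κ hA hC hM hκ h1 => ?_,
    ⟨fun _ h1 h2 h3 => pd_additive h1 h2 h3, pd_sopfr, pd_largest, pd_kempner⟩, fun α d hα hd => expanding_pow hα hd⟩
  obtain ⟨c₀, K, hc₀, hN₀⟩ := good_nat (fun _ => True) (Good A C M) fs hfs hG (s := 2 * A / (3 * M)) (κ := κ)
    (by positivity) hκ h1 (fun ε hε => count_nat (lt_of_lt_of_le one_pos hA) hC hM ε hε)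
  refine ⟨c₀, K, hc₀, fun N hN => le_trans (le_of_eq ?_) (hN₀ N hN)⟩
  congr 2
  ext m
  simp only [Set.mem_ofPred_eq]
  have : (∀ n : ℕ, 1 ≤ n → |(n : ℝ) - G (comp fs m)| ≤ (comp fs m : ℝ) ^ κ → Good A C M n) ↔
      ∀ n : ℕ, 1 ≤ n → True → |(n : ℝ) - G (comp fs m)| ≤ (comp fs m : ℝ) ^ κ → Good A C M n :=
    ⟨fun h n hn _ => h n hn, fun h n hn => h n hn trivial⟩
  rw [this]

end Pool.Agent.Results.MP_14cf73_nt.AdditiveValues
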