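import Pool.Agent.R479.DA.Lim
import Pool.Agent.R909.RandSets
import Pool.Agent.Results.MP_14cf73_nt.ExceptionsByHeight

/-!
# The inequality `c < C H (abc) ^ M` in random sets of integers

Let `H(n) = γ(n) / (log γ(n)) ^ ω(n)`, `C > 0`, `M > 0` and `s = 2 / (3 M)`. Let `A` be a random set of positive integers.

(1) Let two different integers `a`, `b` belong to `A` with probability at most `D (a b) ^ (-γ)`, for instance because they are
chosen independently with probabilities `O (m ^ (-γ))`. If `s < 2 γ` then almost surely all but finitely many of the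
admissible triples `(a, b, c)` such that `c` and `max (a, b)` belong to `A` satisfy `c < C H (abc) ^ M`; in particular this
holds for the triples with all members in `A`. If `s + η < 2 γ` the probability that one of them with `c ≥ y` does not is at
most `B y ^ (-η)`.

(2) Let `m` belong to `A` with probability at most `D m ^ (-γ)`, without any condition on pairs. The same holds with `γ`
instead of `2 γ`, for the triples such that `c` or `max (a, b)` belongs to `A`.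

So for the exponents `M = 1 + ε` of the question (and every constant `C`, even for `M = 1`) the random sets in (1) may have
`X ^ (2 / 3 - ε)` elements up to `X`, and those in (2) may have `X ^ (1 / 3 - ε)` elements.

Proof. By the starting theorem `ExceptionsByHeight` of this problem there are `O (X ^ (s + ε))` exceptional triples with
`c ≤ X`, and `max (a, b) ≥ c / 2`. Then the lemma of Borel and Cantelli for random sets of helper909
(`Pool.Agent.R909.RandSets`) applies.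
-/

set_option autoImplicit false

namespace Pool.Agent.Results.MP_14cf73_nt.RandomSets

open Filter Topology MeasureTheory
open Pool.Agent.Results.MP_14cf73_nt.ExceptionsByHeight (H prod3 exceptions)

/-- `(a, b, a + b)`, written `(a, b)`, is an admissible triple -/
def Admissible (p : ℕ × ℕ) : Prop := 0 < p.1 ∧ 0 < p.2 ∧ Nat.Coprime p.1 p.2

/-- the triple `(a, b, c)`, `c = a + b`, satisfies `c < C H(abc) ^ M` -/
def Good (C M : ℝ) (p : ℕ × ℕ) : Prop := ((p.1 + p.2 : ℕ) : ℝ) < C * H (prod3 p) ^ M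

/-- each `m` belongs to the random set `A` with probability at most `D * m ^ (-γ)` -/
def Sparse {Ω : Type} [MeasurableSpace Ω] (P : Measure Ω) (A : Ω → Set ℕ) (γ D : ℝ) : Prop :=
  ∀ m : ℕ, 0 < m → P {ω | m ∈ A ω} ≤ ENNReal.ofReal (D * (m : ℝ) ^ (-γ))

/-- two different integers `a`, `b` belong to the random set `A` with probability at most `D * (a * b) ^ (-γ)` -/
def PairSparse {Ω : Type} [MeasurableSpace Ω] (P : Measure Ω) (A : Ω → Set ℕ) (γ D : ℝ) : Prop :=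
  ∀ a b : ℕ, 0 < a → 0 < b → a ≠ b →
    P {ω | a ∈ A ω ∧ b ∈ A ω} ≤ ENNReal.ofReal (D * ((a : ℝ) * b) ^ (-γ))

theorem summable_bad {C M : ℝ} (hC : 0 < C) (hM : 0 < M) {p : ℝ} (hp : 2 / (3 * M) < p) :
    Summable fun x : {x : ℕ × ℕ // Admissible x ∧ ¬ Good C M x} => ((x.1.1 + x.1.2 : ℕ) : ℝ) ^ (-p) := by
  obtain ⟨s, hs1, hs2⟩ := exists_between hp
  obtain ⟨K, hK0, hK⟩ := ExceptionsByHeight.result C M (s - 2 / (3 * M)) hC hM (by linarith)
  have h0 : 0 < 2 / (3 * M) := by positivity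
  refine Pool.Agent.R479.DA.summable_heights
    (fun x : {x : ℕ × ℕ // Admissible x ∧ ¬ Good C M x} => ((x.1.1 + x.1.2 : ℕ) : ℝ)) (fun x => ?_) (s := s) (p := p)
    (C := K) hs2 (by linarith) ?_
  · have := x.2.1.1
    exact_mod_cast (by omega : 1 ≤ x.1.1 + x.1.2)
  · intro X hX
    obtain ⟨h1, h2⟩ := hK X hX
    have hmaps : Set.MapsTo (Subtype.val : {x : ℕ × ℕ // Admissible x ∧ ¬ Good C M x} → ℕ × ℕ)
        {x | ((x.1.1 + x.1.2 : ℕ) : ℝ) ≤ X} (exceptions C M X) := by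
      rintro ⟨x, ⟨ha, hb, hab⟩, hg⟩ hx
      exact ⟨ha, hb, hab, hx, not_lt.1 hg⟩
    have hinj : Set.InjOn (Subtype.val : {x : ℕ × ℕ // Admissible x ∧ ¬ Good C M x} → ℕ × ℕ)
        {x | ((x.1.1 + x.1.2 : ℕ) : ℝ) ≤ X} := Subtype.val_injective.injOn
    refine ⟨h1.of_injOn hmaps hinj, ?_⟩
    have h3 := Set.ncard_le_ncard_of_injOn _ hmaps hinj h1
    have e : 2 / (3 * M) + (s - 2 / (3 * M)) = s := by ring
    rw [e] at h2
    exact le_trans (by exact_mod_cast h3) h2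

/-- **Theorem.** Let `C > 0`, `M > 0`, `s = 2 / (3 M)` and let `A` be a random set of positive integers. (1) If `A` is
`PairSparse` with the exponent `γ` and `s < 2 γ`, then almost surely all but finitely many admissible triples `(a, b, c)`
with `c ∈ A` and `max (a, b) ∈ A` satisfy `c < C H(abc) ^ M`; the probability that one of them with `c ≥ y` does not is at
most `B y ^ (-η)` if `s + η < 2 γ`. (2) If `A` is `Sparse` with the exponent `γ`, the same holds with `γ` instead of `2 γ` for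
the triples with `c ∈ A` or `max (a, b) ∈ A`. -/
theorem result (C M : ℝ) (hC : 0 < C) (hM : 0 < M)
    (Ω : Type) [MeasurableSpace Ω] (P : Measure Ω) (A : Ω → Set ℕ) (γ D : ℝ) :
    (PairSparse P A γ D →
      (2 / (3 * M) < 2 * γ → ∀ᵐ ω ∂P, {x : ℕ × ℕ | Admissible x ∧ (x.1 + x.2 ∈ A ω ∧ max x.1 x.2 ∈ A ω) ∧
        ¬ Good C M x}.Finite) ∧
      ∀ η : ℝ, 0 ≤ η → 2 / (3 * M) + η < 2 * γ → ∃ B : ℝ, ∀ y : ℝ, 1 ≤ y →
        P {ω | ∃ x : ℕ × ℕ, Admissible x ∧ y ≤ ((x.1 + x.2 : ℕ) : ℝ) ∧ (x.1 + x.2 ∈ A ω ∧ max x.1 x.2 ∈ A ω) ∧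
          ¬ Good C M x} ≤ ENNReal.ofReal (B * y ^ (-η))) ∧
    (Sparse P A γ D →
      (2 / (3 * M) < γ → ∀ᵐ ω ∂P, {x : ℕ × ℕ | Admissible x ∧ (x.1 + x.2 ∈ A ω ∨ max x.1 x.2 ∈ A ω) ∧
        ¬ Good C M x}.Finite) ∧
      ∀ η : ℝ, 0 ≤ η → 2 / (3 * M) + η < γ → ∃ B : ℝ, ∀ y : ℝ, 1 ≤ y →
        P {ω | ∃ x : ℕ × ℕ, Admissible x ∧ y ≤ ((x.1 + x.2 : ℕ) : ℝ) ∧ (x.1 + x.2 ∈ A ω ∨ max x.1 x.2 ∈ A ω) ∧
          ¬ Good C M x} ≤ ENNReal.ofReal (B * y ^ (-η))) := by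
  have hs0 : 0 < 2 / (3 * M) := by positivity
  have h1 : ∀ x : ℕ × ℕ, (Admissible x ∧ ¬ Good C M x) → (1 : ℝ) ≤ ((x.1 + x.2 : ℕ) : ℝ) := by
    intro x hx
    have := hx.1.1
    exact_mod_cast (by omega : 1 ≤ x.1 + x.2)
  have hu : ∀ x : ℕ × ℕ, (Admissible x ∧ ¬ Good C M x) →
      ((x.1 + x.2 : ℕ) : ℝ) ≤ 2 * ((x.1 + x.2 : ℕ) : ℝ) := by
    intro x hx
    have := h1 x hx
    linarith
  have hv : ∀ x : ℕ × ℕ, (Admissible x ∧ ¬ Good C M x) →
      ((x.1 + x.2 : ℕ) : ℝ) ≤ 2 * ((max x.1 x.2 : ℕ) : ℝ) := by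
    intro x hx
    have h2 : x.1 + x.2 ≤ 2 * max x.1 x.2 := by
      have := le_max_left x.1 x.2
      have := le_max_right x.1 x.2
      omega
    exact_mod_cast h2
  have huv : ∀ x : ℕ × ℕ, (Admissible x ∧ ¬ Good C M x) → x.1 + x.2 ≠ max x.1 x.2 := by
    intro x hx
    have h3 := hx.1.1
    have h4 := hx.1.2.1
    rcases max_choice x.1 x.2 with h | h <;> omega
  constructor
  · intro hA
    have hA' : Pool.Agent.R909.RS.PairSparse P (fun m : ℕ => (m : ℝ)) A γ D := by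
      intro a b ha hb hab
      exact hA a b (Nat.cast_pos.1 ha) (Nat.cast_pos.1 hb) hab
    have key : ∀ η : ℝ, 0 ≤ η → 2 / (3 * M) + η < 2 * γ →
        (∀ᵐ ω ∂P, {x : ℕ × ℕ | (Admissible x ∧ ¬ Good C M x) ∧
          (x.1 + x.2 ∈ A ω ∧ max x.1 x.2 ∈ A ω)}.Finite) ∧ ∃ B : ℝ, ∀ y : ℝ, 1 ≤ y →
        P {ω | ∃ x : ℕ × ℕ, (Admissible x ∧ ¬ Good C M x) ∧ y ≤ ((x.1 + x.2 : ℕ) : ℝ) ∧
          (x.1 + x.2 ∈ A ω ∧ max x.1 x.2 ∈ A ω)} ≤ ENNReal.ofReal (B * y ^ (-η)) :=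
      fun η hη h => Pool.Agent.R909.RS.pair (T := ℕ × ℕ) (H := fun x => ((x.1 + x.2 : ℕ) : ℝ)) hA'
        (Q := fun x => Admissible x ∧ ¬ Good C M x) h1
        (u := fun x => x.1 + x.2) (v := fun x => max x.1 x.2) (K := 2) two_pos hu hv huv
        (by linarith) (p := 2 * γ - η) hη (by linarith) (summable_bad hC hM (by linarith))
    refine ⟨fun h => ?_, fun η hη h => ?_⟩
    · filter_upwards [(key 0 le_rfl (by linarith)).1] with ω hω
      refine hω.subset ?_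
      rintro x ⟨h2, h3, h4⟩
      exact ⟨⟨h2, h4⟩, h3⟩
    · obtain ⟨B, hB⟩ := (key η hη h).2
      refine ⟨B, fun y hy => (measure_mono ?_).trans (hB y hy)⟩
      rintro ω ⟨x, h2, h3, h4, h5⟩
      exact ⟨x, ⟨h2, h5⟩, h3, h4⟩
  · intro hA
    have hA' : Pool.Agent.R909.RS.Sparse P (fun m : ℕ => (m : ℝ)) A γ D := by
      intro m hm
      exact hA m (Nat.cast_pos.1 hm)
    have key : ∀ η : ℝ, 0 ≤ η → 2 / (3 * M) + η < γ → ∀ u : (ℕ × ℕ) → ℕ,
        (∀ x, (Admissible x ∧ ¬ Good C M x) → ((x.1 + x.2 : ℕ) : ℝ) ≤ 2 * ((u x : ℕ) : ℝ)) →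
        (∀ᵐ ω ∂P, {x : ℕ × ℕ | (Admissible x ∧ ¬ Good C M x) ∧ u x ∈ A ω}.Finite) ∧
        ∃ B : ℝ, ∀ y : ℝ, 1 ≤ y →
        P {ω | ∃ x : ℕ × ℕ, (Admissible x ∧ ¬ Good C M x) ∧ y ≤ ((x.1 + x.2 : ℕ) : ℝ) ∧ u x ∈ A ω} ≤
          ENNReal.ofReal (B * y ^ (-η)) :=
      fun η hη h u hu => Pool.Agent.R909.RS.single (T := ℕ × ℕ) (H := fun x => ((x.1 + x.2 : ℕ) : ℝ)) hA'
        (Q := fun x => Admissible x ∧ ¬ Good C M x) h1
        (u := u) (K := 2) two_pos hu (by linarith) (p := γ - η) hη (by linarith)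
        (summable_bad hC hM (by linarith))
    refine ⟨fun h => ?_, fun η hη h => ?_⟩
    · filter_upwards [(key 0 le_rfl (by linarith) (fun x => x.1 + x.2) hu).1,
        (key 0 le_rfl (by linarith) (fun x => max x.1 x.2) hv).1] with ω h2 h3
      refine (h2.union h3).subset ?_
      rintro x ⟨h4, h5 | h5, h6⟩
      · exact Or.inl ⟨⟨h4, h6⟩, h5⟩
      · exact Or.inr ⟨⟨h4, h6⟩, h5⟩
    · obtain ⟨B, hB⟩ := (key η hη h (fun x => x.1 + x.2) hu).2
      obtain ⟨B', hB'⟩ := (key η hη h (fun x => max x.1 x.2) hv).2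
      refine ⟨|B| + |B'|, fun y hy => ?_⟩
      have hy0 : 0 ≤ y ^ (-η) := Real.rpow_nonneg (by linarith) _
      have h6 : {ω | ∃ x : ℕ × ℕ, Admissible x ∧ y ≤ ((x.1 + x.2 : ℕ) : ℝ) ∧
          (x.1 + x.2 ∈ A ω ∨ max x.1 x.2 ∈ A ω) ∧ ¬ Good C M x} ⊆
          {ω | ∃ x : ℕ × ℕ, (Admissible x ∧ ¬ Good C M x) ∧ y ≤ ((x.1 + x.2 : ℕ) : ℝ) ∧ x.1 + x.2 ∈ A ω} ∪
          {ω | ∃ x : ℕ × ℕ, (Admissible x ∧ ¬ Good C M x) ∧ y ≤ ((x.1 + x.2 : ℕ) : ℝ) ∧
            max x.1 x.2 ∈ A ω} := by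
        rintro ω ⟨x, h2, h3, h4 | h4, h5⟩
        · exact Or.inl ⟨x, ⟨h2, h5⟩, h3, h4⟩
        · exact Or.inr ⟨x, ⟨h2, h5⟩, h3, h4⟩
      refine (measure_mono h6).trans ((measure_union_le _ _).trans ?_)
      refine (add_le_add (hB y hy) (hB' y hy)).trans ?_
      have h7 : ENNReal.ofReal (B * y ^ (-η)) ≤ ENNReal.ofReal (|B| * y ^ (-η)) :=
        ENNReal.ofReal_le_ofReal (mul_le_mul_of_nonneg_right (le_abs_self B) hy0)
      have h8 : ENNReal.ofReal (B' * y ^ (-η)) ≤ ENNReal.ofReal (|B'| * y ^ (-η)) :=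
        ENNReal.ofReal_le_ofReal (mul_le_mul_of_nonneg_right (le_abs_self B') hy0)
      refine (add_le_add h7 h8).trans (le_of_eq ?_)
      rw [← ENNReal.ofReal_add (by positivity) (by positivity), add_mul]

end Pool.Agent.Results.MP_14cf73_nt.RandomSets
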