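import Pool.Agent.N671.DA.Win
import Pool.Agent.K6.H40.LogAbc

/-!
# The inequality `c < C H (abc) ^ M` for triples with a member near functions of the denominators of good approximations

Let `α_1, …, α_m` be real numbers. We consider the natural numbers `q` with `‖q α_j - β_j‖ ≤ c q ^ (-τ)` for all `j`, `‖x‖`
the distance to the nearest integer; for `β = 0`, `c = 1`, `τ = 1 / m` these include the denominators of all best
simultaneous approximations (the denominators of the convergents for `m = 1`). They form a very sparse sequence, with gaps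
growing exponentially for almost all `α` if `τ = 1 / m`. We show: let `G` be a function with steps bounded below by a positive
constant and growth at most `v ^ d`, for example `a v ^ d`, and `0 ≤ κ ≤ 1`. For all `α` in `ℝ^m` outside a set of Hausdorff
dimension at most `(m + 2 A d / (3 M) + κ) / (1 + τ)`, and all `c`, for all but finitely many such `q` EVERY admissible triple
one of whose members `n` is within `q ^ κ` of `G q`, and with `c ≤ n ^ A`, satisfies `c < C H (abc) ^ M`. For `τ = 1 / m` the
bound is less than `m` if `2 A d / (3 M) + κ < 1`; and so the statement holds for almost all `α`. For `M = 1 + ε` this is the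
inequality of the question, for `A = 1` and every order `d < 3 / 2`; here `C > 0` is arbitrary.

Proof. The number of the members of the exceptional triples up to `X` is at most `X ^ (2 A / (3 M) + ε)` by the starting
theorem `ExceptionsByHeight` of this problem. So the `q` such that there is one of them near `G q` form a set with
`O (X ^ (2 A d / (3 M) + κ + ε))` elements up to `X`; and the `α` with `‖q α_j - β_j‖ ≤ c q ^ (-τ)` for all `j` and infinitely
many `q` of such a set are covered by few small cubes (tool of helper671, `N671/DA`).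
-/

set_option autoImplicit false

namespace Pool.Agent.Results.MP_14cf73_nt.SimultaneousApproximations

open Pool.Agent.N671.DA (Solves Expanding expanding_pow approx_good_nat)
open Pool.Agent.Results.MP_14cf73_nt.SequenceMembers (Good)
open Pool.Agent.K6.H40.LogAbc (count_nat)

/-- **The inequality with `H` near the denominators of good approximations.** Let `G` have steps `≥ a > 0` and growth at most
`v ^ d`, `A ≥ 1`, `C > 0`, `M > 0`, `0 ≤ κ ≤ 1`, `β` in `ℝ^m` and `τ > 0`. For all `α` in `ℝ^m` outside a set of Hausdorff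
dimension at most `(m + 2 A d / (3 M) + κ) / (1 + τ)` and all `c`, for all large `q` with `‖q α_j - β_j‖ ≤ c q ^ (-τ)` for all
`j` (`Solves α β q (c q ^ (-τ))`), EVERY `n ≥ 1` with `|n - G q| ≤ q ^ κ` is `Good A C M`: every admissible triple with the
member `n` and `c ≤ n ^ A` satisfies `c < C H (abc) ^ M`. In particular, for `τ = 1 / m` and `2 A d / (3 M) + κ < 1` this
holds for all `α` outside a set of dimension less than `m`. The functions `a v ^ d` with `a > 0`, `d ≥ 1` are examples of
`G`. -/
theorem result :
    (∀ (G : ℕ → ℝ) (d : ℝ), Expanding G d → ∀ A C M κ : ℝ, 1 ≤ A → 0 < C → 0 < M → 0 ≤ κ → κ ≤ 1 →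
      ∀ (m : ℕ) (β : Fin m → ℝ) (τ : ℝ), 0 < τ →
      ∃ E : Set (Fin m → ℝ), dimH E ≤ ENNReal.ofReal ((m + (d * (2 * A / (3 * M)) + κ)) / (1 + τ)) ∧
        ∀ α, α ∉ E → ∀ c : ℝ, ∃ Q : ℕ, ∀ q : ℕ, Q ≤ q → Solves α β q (c * (q : ℝ) ^ (-τ)) →
          ∀ n : ℕ, 1 ≤ n → |(n : ℝ) - G q| ≤ (q : ℝ) ^ κ → Good A C M n) ∧
    (∀ (m : ℕ) (s : ℝ), 1 ≤ m → s < 1 → ((m : ℝ) + s) / (1 + 1 / (m : ℝ)) < m) ∧
    ∀ α d : ℝ, 0 < α → 1 ≤ d → Expanding (fun v => α * (v : ℝ) ^ d) d := by
  refine ⟨fun G d hG A C M κ hA hC hM hκ hκ1 m β τ hτ => ?_, fun m s hm hs => ?_, fun α d hα hd => expanding_pow hα hd⟩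
  · obtain ⟨E, hE, hE2⟩ := approx_good_nat (fun _ => True) (Good A C M) hG (s := 2 * A / (3 * M)) (κ := κ)
      (by positivity) hκ hκ1 (fun ε hε => count_nat (lt_of_lt_of_le one_pos hA) hC hM ε hε) β hτ
    exact ⟨E, hE, fun α hα c => by
      obtain ⟨Q, hQ⟩ := hE2 α hα c
      exact ⟨Q, fun q hq h1 n hn h2 => hQ q hq h1 n hn trivial h2⟩⟩
  · have hm0 : (0 : ℝ) < m := by exact_mod_cast (by omega : 0 < m)
    rw [div_lt_iff₀ (by positivity)]
    field_simp
    nlinarith

end Pool.Agent.Results.MP_14cf73_nt.SimultaneousApproximations
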