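import Pool.Agent.N760.IT.C
import Pool.Agent.K6.H40.LogAbc

/-!
# The inequality `c < C H (abc) ^ M` for triples with a member near the members of almost all orbits of Euler's function

Let `φ_k` be the `k`-th iterate of Euler's function, `φ_0(m) = m`. Let `f` be a positive multiplicative function of at most
polynomial growth such that `f p ≤ M p` for the large primes `p`, with different values at different large primes; for
example the identity, Euler's function or the sum of the divisors. Let `G` have steps bounded below by a positive constant
and growth at most `v ^ d`, for example `α v ^ d` with `α > 0`, `d ≥ 1`. If `2 A d / (3 M) + κ < 1`, then there is a function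
`K(m)` tending to infinity such that for almost all `m`, for all `k ≤ K(m)`, with `v = f(φ_k(m))`, EVERY admissible triple one
of whose members `n` is within `v ^ κ` of `G v`, and with `c ≤ n ^ A`, satisfies `c < C H (abc) ^ M`. For `M = 1 + ε` this is
the inequality of the question, for `A = 1` and every order `d < 3 / 2`; here `C > 0` is arbitrary.

The iterates of Euler's function are not multiplicative, their values form a very thin set and are taken with very large
multiplicities, and so this does not follow from the size of the exceptional set alone, nor from the starting theorem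
`MultiplicativeValues` of this problem.

Proof. The number of the members of the exceptional triples up to `X` is at most `X ^ (2 A / (3 M) + ε)` by the starting
theorem `ExceptionsByHeight` of this problem. Let `P` be the largest prime factor of `m`; for most `m` it is greater than a
power of `m` close to `1 / J`, `J → ∞` slowly; `P - 1` divides `φ(m)`, and so on: one finds that `f(φ_k(m))` is, outside a
set of density `0`, determined by few data, and falls into a set with a power saving rarely (tool of helper760, `N760/IT`).
-/

set_option autoImplicit false

namespace Pool.Agent.Results.MP_14cf73_nt.TotientOrbits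

open Filter
open Pool.Agent.N733.TG (LM Expanding lm_totient lm_sigma expanding_pow)
open Pool.Agent.N760.IT (orb lm_id orbit_good_nat)
open Pool.Agent.N826.IT.Orb (AlmostAll almostAll_mono)
open Pool.Agent.Results.MP_14cf73_nt.SequenceMembers (Good)
open Pool.Agent.K6.H40.LogAbc (count_nat)

/-- **The inequality with `H` near the orbits of Euler's function.** `orb f k m` is `f(φ_k(m))`, `φ_k` the `k`-th iterate of
Euler's function, `φ_0(m) = m`. Let `f` be multiplicative and positive, of at most polynomial growth, with `f p ≤ M p` at the
large primes, and injective there. Let `G` have steps `≥ a > 0` and growth at most `v ^ d`. Let `A ≥ 1`, `C > 0`, `M > 0`,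
`κ ≥ 0` and `2 A d / (3 M) + κ < 1`. There is `K(m)` tending to infinity such that for almost all `m` (all `m ≤ N` but
`o(N)`), for all `k ≤ K(m)`, EVERY `n ≥ 1` with `|n - G (f (φ_k m))| ≤ f(φ_k(m)) ^ κ` is `Good A C M`: every admissible
triple with the member `n` and `c ≤ n ^ A` satisfies `c < C H (abc) ^ M`. The identity, Euler's function and the sum of the
divisors are examples of such functions `f`, and `α v ^ d` with `α > 0`, `d ≥ 1` is an example of `G`. -/
theorem result :
    (∀ f : ℕ → ℕ, LM f → ∀ (G : ℕ → ℝ) (d : ℝ), Expanding G d → ∀ A C M κ : ℝ, 1 ≤ A → 0 < C → 0 < M → 0 ≤ κ →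
      d * (2 * A / (3 * M)) + κ < 1 → ∃ K : ℕ → ℕ, Tendsto K atTop atTop ∧
        AlmostAll (fun m => ∀ k ≤ K m, ∀ n : ℕ, 1 ≤ n → |(n : ℝ) - G (orb f k m)| ≤ (orb f k m : ℝ) ^ κ →
          Good A C M n)) ∧
    (LM (fun m => m) ∧ LM Nat.totient ∧ LM (fun m => ∑ d ∈ m.divisors, d)) ∧
    ∀ α d : ℝ, 0 < α → 1 ≤ d → Expanding (fun v => α * (v : ℝ) ^ d) d := by
  refine ⟨fun f hf G d hG A C M κ hA hC hM hκ h1 => ?_, ⟨lm_id, lm_totient, lm_sigma⟩,
    fun α d hα hd => expanding_pow hα hd⟩
  obtain ⟨K, hK, hK2⟩ := orbit_good_nat (fun _ => True) (Good A C M) hf hG (s := 2 * A / (3 * M)) (κ := κ)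
    (by positivity) hκ h1 (fun ε hε => count_nat (lt_of_lt_of_le one_pos hA) hC hM ε hε)
  exact ⟨K, hK, almostAll_mono hK2 (fun m hm k hk n hn h2 => hm k hk n hn trivial h2)⟩

end Pool.Agent.Results.MP_14cf73_nt.TotientOrbits
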